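import Pool.Agent.Y516.CB.Basic

/-!
# The action of the twist regions on the split basis
-/

set_option autoImplicit false

namespace Pool.Agent.Y516.CB

open Finset Pool.Agent.Y472 Polynomial

theorem pow_eig {V : Type} [AddCommGroup V] [Module ℂ V] (A : V →ₗ[ℂ] V) (μ : ℂ) (x : V)
    (h : A x = μ • x) (n : ℕ) : (A ^ n) x = μ ^ n • x := by
  induction n with
  | zero => simp
  | succ n ih => rw [pow_succ', Module.End.mul_apply, ih, map_smul, h, smul_smul, pow_succ]

theorem aeval_eig {V : Type} [AddCommGroup V] [Module ℂ V] (A : V →ₗ[ℂ] V) (μ : ℂ) (x : V)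
    (h : A x = μ • x) (P : ℂ[X]) : aeval A P x = P.eval μ • x := by
  induction P using Polynomial.induction_on' with
  | add p q hp hq => rw [map_add, LinearMap.add_apply, hp, hq, eval_add, add_smul]
  | monomial n c =>
    rw [aeval_monomial, eval_monomial, Module.End.mul_apply, pow_eig A μ x h, map_smul,
      Module.algebraMap_end_apply, smul_smul, mul_comm]

theorem hat_aeval (hM : S_HATM) (hTH : S_TH) (hN : S_NIL) {N : ℕ} {w l : ℂ} (hw : Rt N w)
    (hl : Gl l) {X : V3 →ₗ[ℂ] V3} (hX : Gd3 N w l X) (P : ℂ[X]) :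
    hat w l (aeval X P) = aeval (hat w l X) P := by
  induction P using Polynomial.induction_on' with
  | add p q hp hq =>
    rw [map_add, map_add, ← hp, ← hq]
    rfl
  | monomial n c =>
    rw [aeval_monomial, aeval_monomial, ← hat_pow hM hTH hN hw hl hX]
    rfl

theorem L12_pow (A : V2 →ₗ[ℂ] V2) (n : ℕ) : L12 (A ^ n) = L12 A ^ n := by
  induction n with
  | zero => rfl
  | succ n ih => rw [pow_succ, pow_succ, ← ih]; rfl

theorem L12_aeval (A : V2 →ₗ[ℂ] V2) (P : ℂ[X]) : L12 (aeval A P) = aeval (L12 A) P := by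
  induction P using Polynomial.induction_on' with
  | add p q hp hq =>
    rw [map_add, map_add, ← hp, ← hq]
    rfl
  | monomial n c =>
    rw [aeval_monomial, aeval_monomial, ← L12_pow]
    rfl

/-- the interpolation polynomial -/
noncomputable def PI (N : ℕ) (w l : ℂ) (a : ℤ) : ℂ[X] :=
  Lagrange.interpolate (range N) (uu w l) (fun j => se w l j ^ a)

theorem PI_eval {N : ℕ} {w l : ℂ} (hw : Rt N w) (hl : Gl l) (a : ℤ) {k : ℕ} (hk : k < N) :
    (PI N w l a).eval (uu w l k) = se w l k ^ a := by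
  unfold PI
  rw [Lagrange.eval_interpolate_at_node _ _ (Finset.mem_range.mpr hk)]
  intro i hi j hj hij
  exact uu_inj hw hl (by simpa using hi) (by simpa using hj) hij

/-- the crossings are polynomials of the Casimir operator -/
theorem sz_eq (hB : S_BAS) (hH : S_HV) (h1 : S_SIG1) (h2 : S_SIG2) (hT : S_SIGT) (hN : S_NIL)
    {N : ℕ} {w l : ℂ} (hw : Rt N w) (hl : Gl l) (a : ℤ) {x : V2} (hx : x ∈ T2 N) :
    sz w l a x = aeval (cas w l) (PI N w l a) x := by
  refine eq_on_T2 hB hH h1 h2 hT hN hw hl _ _ ?_ hx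
  intro j hj k _
  have hgv := (hH h1 h2 hT N w l hw hl j hj).2.2 k
  rw [aeval_eig _ _ _ hgv.2.1, PI_eval hw hl a hj]
  unfold sz
  split_ifs with ha
  · rw [pow_eig _ _ _ hgv.2.2.1]
    conv_rhs => rw [← Int.toNat_of_nonneg ha]
    rw [zpow_natCast]
  · rw [pow_eig _ _ _ hgv.2.2.2]
    congr 1
    have ha' : (0 : ℤ) ≤ -a := by omega
    have e2 : a = -((-a).toNat : ℤ) := by
      rw [Int.toNat_of_nonneg ha']; ring
    conv_rhs => rw [e2]
    rw [zpow_neg, zpow_natCast, inv_pow]

theorem hat12 (hX : S_X12) (hM : S_HATM) (hG : S_GD3) (hB : S_BAS) (hH : S_HV) (h1 : S_SIG1)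
    (h2 : S_SIG2) (hT : S_SIGT) (hTH : S_TH) (hN : S_NIL)
    {N : ℕ} {w l : ℂ} (hw : Rt N w) (hl : Gl l) (a : ℤ) {x : V2} (hx : x ∈ T2 N) :
    hat w l (L12 (sz w l a)) x = aeval (X12 w l) (PI N w l a) x := by
  have g := (hG N w l hw hl.ne _ (gd_cas hT hw hl.ne)).1
  rw [← (hX hTH hN hT N w l hw hl).1, ← hat_aeval hM hTH hN hw hl g, ← L12_aeval]
  have hx3 : Th w l x ∈ T3 N := (hTH hN N w l hw hl).2.2.2.1 x hx
  show (L12 (sz w l a)) (Th w l x) 0 = (L12 (aeval (cas w l) (PI N w l a))) (Th w l x) 0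
  funext b c
  show sz w l a (fun a b => Th w l x a b c) 0 b =
    aeval (cas w l) (PI N w l a) (fun a b => Th w l x a b c) 0 b
  rw [sz_eq hB hH h1 h2 hT hN hw hl a]
  intro a b h
  exact hx3 a b c (by rcases h with h | h <;> simp [h])

theorem hat23 (hX : S_X12) (hB : S_BAS) (hH : S_HV) (h1 : S_SIG1)
    (h2 : S_SIG2) (hT : S_SIGT) (hTH : S_TH) (hN : S_NIL)
    {N : ℕ} {w l : ℂ} (hw : Rt N w) (hl : Gl l) (a : ℤ) {x : V2} (hx : x ∈ T2 N) :
    hat w l (L23 (sz w l a)) x = aeval (cas w l) (PI N w l a) x := by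
  rw [(hX hTH hN hT N w l hw hl).2, sz_eq hB hH h1 h2 hT hN hw hl a hx]

theorem fb_T2 (N : ℕ) (w l : ℂ) (D i : ℕ) : fb N w l D i ∈ T2 N := by
  intro a b h
  unfold fb
  rw [if_neg]
  omega

theorem qi_zero (w : ℂ) : qi w 0 = 0 := by simp [qi, cb]

theorem fb_N (N : ℕ) (w l : ℂ) (D : ℕ) : fb N w l D N = 0 := by
  funext q s
  unfold fb
  split_ifs with h
  · have : ∏ t ∈ range N, (cb (l ^ 3 * w ^ (-2 - (D : ℤ) - t)) * qi w ((q : ℤ) - t)) = 0 := by
      refine Finset.prod_eq_zero (Finset.mem_range.mpr h.2.1) ?_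
      rw [sub_self, qi_zero, mul_zero]
    rw [this]
    simp
  · rfl

theorem nodal_shift (v : ℕ → ℂ) (i j k : ℕ) :
    Lagrange.nodalWeight (Icc i (i + j)) v (i + k) =
      Lagrange.nodalWeight (Icc 0 j) (fun t => v (i + t)) k := by
  unfold Lagrange.nodalWeight
  have e : Icc i (i + j) = (Icc 0 j).map (addLeftEmbedding i) := by
    rw [Finset.map_add_left_Icc, Nat.add_zero]
  have e2 : (Icc i (i + j)).erase (i + k) = ((Icc 0 j).erase k).map (addLeftEmbedding i) := by
    rw [e, Finset.map_erase]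
    rfl
  rw [e2, Finset.prod_map]
  rfl

/-- ACT -/
theorem act : S_ACT := by
  intro hBID hSPL hX hM hG hB hH h1 h2 hT hTH hN N w l hw hl a D i hD hi
  constructor
  · rw [hat12 hX hM hG hB hH h1 h2 hT hTH hN hw hl a (fb_T2 N w l D i)]
    have hb := (hBID V2 (X12 w l) (fun t => uu w l (i + t)) (fun t => fb N w l D (i + t))
      (fun _ => 0) (N - i) (PI N w l a) ?_).1 ?_ ?_ 0 (by omega)
    · rw [Nat.add_zero] at hb
      rw [hb, Finset.sum_Ico_eq_sum_range, Finset.sum_Ico_eq_sum_range, Nat.sub_zero]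
      refine Finset.sum_congr rfl fun j hj => ?_
      have hj' : j < N - i := Finset.mem_range.mp hj
      rw [Nat.zero_add]
      congr 1
      unfold gd
      have e : Icc i (i + j) = (Icc 0 j).map (addLeftEmbedding i) := by
        rw [Finset.map_add_left_Icc, Nat.add_zero]
      conv_rhs => arg 1; rw [e]
      rw [Finset.sum_map]
      refine Finset.sum_congr rfl fun k hk => ?_
      have hk' := Finset.mem_Icc.mp hk
      show _ = Lagrange.nodalWeight (Icc i (i + j)) (uu w l) (i + k) * se w l (i + k) ^ a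
      rw [nodal_shift, PI_eval hw hl a (by omega)]
    · intro s hs t ht hst
      have hs' : s < N - i := hs
      have ht' : t < N - i := ht
      have := uu_inj hw hl (show i + s ∈ Set.Iio N from by show i + s < N; omega)
        (show i + t ∈ Set.Iio N from by show i + t < N; omega) hst
      omega
    · intro t ht
      exact (hSPL N w l hw hl D (i + t) (by omega) (by omega)).1
    · show fb N w l D (i + (N - i)) = 0
      rw [Nat.add_sub_cancel' hi.le, fb_N]
  · rw [hat23 hX hB hH h1 h2 hT hTH hN hw hl a (fb_T2 N w l D i)]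
    have ph0 : ph w l D (D + 1 - N) = 0 := by
      unfold ph
      rcases Nat.lt_or_ge (D + 1) N with h | h
      · have : D + 1 - N = 0 := by omega
        rw [this]
        have e : qi w ((0 : ℕ) : ℤ) = 0 := qi_zero w
        rw [e]
        ring
      · have e : qi w ((D : ℤ) + 1 - ((D + 1 - N : ℕ) : ℤ)) = 0 := by
          have e1 : (D : ℤ) + 1 - ((D + 1 - N : ℕ) : ℤ) = N := by
            push_cast [Nat.cast_sub h]; ring
          rw [e1]
          unfold qi cb
          rw [zpow_natCast, hw.neg]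
          norm_num
        rw [e]
        ring
    have hb := (hBID V2 (cas w l) (uu w l) (fun t => fb N w l D t)
      (fun t => ph w l D t) N (PI N w l a) (uu_inj hw hl)).2 (D + 1 - N) ?_ ph0 i hi (by omega)
    · rw [hb]
      have hsub : Icc (D + 1 - N) i ⊆ range (i + 1) := by
        intro t ht
        have := Finset.mem_Icc.mp ht
        exact Finset.mem_range.mpr (by omega)
      rw [← Finset.sum_subset hsub]
      · refine Finset.sum_congr rfl fun j hj => ?_
        have hj' := Finset.mem_Icc.mp hj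
        congr 2
        unfold gd
        refine Finset.sum_congr rfl fun k hk => ?_
        have hk' := Finset.mem_Icc.mp hk
        rw [PI_eval hw hl a (by omega)]
      · intro j hj hj2
        have hj' := Finset.mem_range.mp hj
        have hj3 : j < D + 1 - N := by
          by_contra hcon
          exact hj2 (Finset.mem_Icc.mpr ⟨by omega, by omega⟩)
        have : ∏ t ∈ Ioc j i, ph w l D t = 0 :=
          Finset.prod_eq_zero (Finset.mem_Ioc.mpr ⟨hj3, by omega⟩) ph0
        rw [this, zero_mul, zero_smul]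
    · intro t ht ht2
      exact (hSPL N w l hw hl D t (by omega) ht).2

end Pool.Agent.Y516.CB
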