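import Pool.Agent.Y516.CB.Basic

/-!
# The full twist acts on the highest weight vectors by scalars
-/

set_option autoImplicit false

namespace Pool.Agent.Y516.CB

open Finset Pool.Agent.Y472

theorem qb_zero (w : ℂ) (a : ℕ) : qb w a 0 = 1 := by
  cases a <;> rfl

/-- a vector supported on `a = 0` -/
theorem sg_row {w l : ℂ} {x : V2} (hx : ∀ a b, a ≠ 0 → x a b = 0) (a b : ℕ) :
    sg w l x a b = if b = 0 then l ^ (-(1 + (a : ℤ))) * w ^ (1 + (a : ℤ)) * x 0 a else 0 := by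
  show l ^ (-(1 + (a : ℤ) + b)) * w ^ (1 + (a : ℤ) + b + 2 * a * b) *
    ∑ n ∈ range (a + 1), w ^ (n * (n - 1) / 2) * qb w a n *
      (∏ t ∈ range n, lb w l (-(b : ℤ) - 1 - t)) * x (b + n) (a - n) = _
  split_ifs with hb
  · subst hb
    rw [Finset.sum_eq_single 0]
    · simp [qb_zero]
    · intro n _ hn
      rw [hx _ _ (by omega), mul_zero]
    · intro h
      exact absurd (Finset.mem_range.mpr (Nat.succ_pos a)) h
  · rw [Finset.sum_eq_zero, mul_zero]
    intro n _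
    rw [hx _ _ (by omega), mul_zero]

/-- the first column of the image -/
theorem sg_col {w l : ℂ} (x : V2) (q : ℕ) :
    sg w l x 0 q = l ^ (-(1 + (q : ℤ))) * w ^ (1 + (q : ℤ)) * x q 0 := by
  show l ^ (-(1 + ((0 : ℕ) : ℤ) + q)) * w ^ (1 + ((0 : ℕ) : ℤ) + q + 2 * ((0 : ℕ) : ℤ) * q) *
    ∑ n ∈ range (0 + 1), w ^ (n * (n - 1) / 2) * qb w 0 n *
      (∏ t ∈ range n, lb w l (-(q : ℤ) - 1 - t)) * x (q + n) (0 - n) = _
  simp [qb_zero]

/-- `(w / l) ^ n` as it occurs -/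
theorem wl_pow {w l : ℂ} (n : ℕ) : l ^ (-(n : ℤ)) * w ^ (n : ℤ) = (w / l) ^ n := by
  rw [zpow_neg, zpow_natCast, zpow_natCast, div_pow]
  ring

theorem wl1 {w l : ℂ} (a : ℕ) :
    l ^ (-(1 + (a : ℤ))) * w ^ (1 + (a : ℤ)) = (w / l) ^ (1 + a) := by
  rw [← wl_pow]
  push_cast
  rfl

/-- the two crossings which move the first strand through -/
theorem thru {w l : ℂ} (m : V2) (a b c : ℕ) :
    (L23 (sg w l)) ((L12 (sg w l)) (io m)) a b c =
      if c = 0 then (w / l) ^ (2 + a + b) * m a b else 0 := by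
  have h1 : ∀ a b c, (L12 (sg w l)) (io m) a b c =
      if b = 0 then (w / l) ^ (1 + a) * m a c else 0 := by
    intro a b c
    show sg w l (fun a b => io m a b c) a b = _
    rw [sg_row (fun a' b' ha => by show (if a' = 0 then m b' c else 0) = 0; rw [if_neg ha])]
    rw [wl1]
    rfl
  show sg w l ((L12 (sg w l)) (io m) a) b c = _
  rw [sg_row (fun a' b' ha => by rw [h1, if_neg ha])]
  rw [h1, if_pos rfl, wl1]
  split_ifs
  · ring
  · rfl

/-- the two crossings which move the last strand through -/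
theorem thru' {w l : ℂ} (z : V2) (y : V3) (hy : ∀ a b c, y a b c = if c = 0 then z a b else 0)
    (q s : ℕ) :
    (L12 (sg w l)) ((L23 (sg w l)) y) 0 q s = (w / l) ^ (2 + q + s) * z q s := by
  show sg w l (fun a b => (L23 (sg w l)) y a b s) 0 q = _
  rw [sg_col]
  show l ^ (-(1 + (q : ℤ))) * w ^ (1 + (q : ℤ)) * (sg w l (y q) 0 s) = _
  rw [sg_col, hy, if_pos rfl, wl1, wl1]
  ring

/-- the full twist once -/
noncomputable def FX (w l : ℂ) : V3 →ₗ[ℂ] V3 :=
  L12 (sg w l) * L23 (sg w l) * L12 (sg w l) * L12 (sg w l) * L23 (sg w l) * L12 (sg w l)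

noncomputable def FXn (w l : ℂ) : V3 →ₗ[ℂ] V3 :=
  L12 (sn w l) * L23 (sn w l) * L12 (sn w l) * L12 (sn w l) * L23 (sn w l) * L12 (sn w l)

theorem FX_apply {w l : ℂ} (x : V3) : FX w l x = (L12 (sg w l)) ((L23 (sg w l)) ((L12 (sg w l))
    ((L12 (sg w l)) ((L23 (sg w l)) ((L12 (sg w l)) x))))) := rfl

/-- the full twist on `e_0 ⊗ m` -/
theorem FX_io {w l : ℂ} (m : V2) {D : ℕ} (hm : Hom D m) (hm2 : Hom D (sg w l (sg w l m)))
    (q s : ℕ) :
    FX w l (io m) 0 q s = (w / l) ^ (2 * (2 + D)) * sg w l (sg w l m) q s := by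
  rw [FX_apply]
  set y := (L12 (sg w l)) ((L12 (sg w l)) ((L23 (sg w l)) ((L12 (sg w l)) (io m)))) with hy
  have h1 : ∀ a b c, y a b c = if c = 0 then ((w / l) ^ (2 + D) • sg w l (sg w l m)) a b else 0 := by
    intro a b c
    set u := (L23 (sg w l)) ((L12 (sg w l)) (io m)) with hu
    have hu' : ∀ a b c, u a b c = if c = 0 then ((w / l) ^ (2 + D) • m) a b else 0 := by
      intro a b c
      rw [hu, thru]
      by_cases hab : a + b = D
      · rw [Nat.add_assoc, hab]; rfl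
      · rw [hm a b hab]
        show _ = if c = 0 then (w / l) ^ (2 + D) * m a b else 0
        rw [hm a b hab, mul_zero, mul_zero]
    have e : (fun a b => u a b c) = if c = 0 then ((w / l) ^ (2 + D) • m) else 0 := by
      funext a b
      rw [hu']
      split_ifs <;> rfl
    have e1 : (fun a b => (L12 (sg w l)) u a b c) = sg w l (fun a b => u a b c) := rfl
    show sg w l (fun a b => (L12 (sg w l)) u a b c) a b = _
    rw [e1, e]
    split_ifs
    · rw [map_smul, map_smul]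
    · rw [map_zero, map_zero]; rfl
  rw [thru' _ y h1]
  show (w / l) ^ (2 + q + s) * ((w / l) ^ (2 + D) * sg w l (sg w l m) q s) = _
  by_cases hqs : q + s = D
  · rw [Nat.add_assoc, hqs]
    ring
  · rw [hm2 q s hqs]
    ring

theorem aa_ne {N : ℕ} {w l : ℂ} (hw : Rt N w) (hl : Gl l) (j k : ℕ) : aa w l j k k ≠ 0 := by
  unfold aa
  rw [Nat.sub_self, Finset.prod_range_zero, mul_one]
  refine mul_ne_zero (mul_ne_zero (pow_ne_zero _ hl.ne) (zpow_ne_zero _ (rt_ne hw))) ?_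
  refine Finset.prod_ne_zero_iff.mpr fun t _ => ?_
  exact div_ne_zero (lb_ne hw hl _) (cb_lw hw hl (by norm_num) _)

/-- the operator `ta (a + b)` -/
noncomputable def Tw (w l : ℂ) : V2 →ₗ[ℂ] V2 where
  toFun x a b := ta w l (a + b) * x a b
  map_add' x y := by funext a b; simp only [Pi.add_apply]; ring
  map_smul' c x := by funext a b; simp only [Pi.smul_apply, smul_eq_mul, RingHom.id_apply]; ring

theorem Tw_hom {w l : ℂ} {D : ℕ} {x : V2} (hx : Hom D x) : Tw w l x = ta w l D • x := by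
  funext a b
  show ta w l (a + b) * x a b = ta w l D * x a b
  by_cases h : a + b = D
  · rw [h]
  · rw [hx a b h, mul_zero, mul_zero]

theorem ta_ne {N : ℕ} {w l : ℂ} (hw : Rt N w) (hl : Gl l) (D : ℕ) : ta w l D ≠ 0 :=
  mul_ne_zero (zpow_ne_zero _ hl.ne) (pow_ne_zero _ (rt_ne hw))

theorem FX_gd3 (h1 : S_SIG1) (hT : S_SIGT) (hG : S_GD3) {N : ℕ} {w l : ℂ} (hw : Rt N w)
    (hl : Gl l) : Gd3 N w l (FX w l) := by
  have a := (hG N w l hw hl.ne _ (gd_sg h1 hT hw hl.ne)).1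
  have b := (hG N w l hw hl.ne _ (gd_sg h1 hT hw hl.ne)).2
  exact gd3_mul (gd3_mul (gd3_mul (gd3_mul (gd3_mul a b) a) a) b) a

theorem FXn_gd3 (h2 : S_SIG2) (hT : S_SIGT) (hG : S_GD3) {N : ℕ} {w l : ℂ} (hw : Rt N w)
    (hl : Gl l) : Gd3 N w l (FXn w l) := by
  have a := (hG N w l hw hl.ne _ (gd_sn h2 hT hw hl.ne)).1
  have b := (hG N w l hw hl.ne _ (gd_sn h2 hT hw hl.ne)).2
  exact gd3_mul (gd3_mul (gd3_mul (gd3_mul (gd3_mul a b) a) a) b) a

/-- the full twist on the basis -/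
theorem hat_FX_gv (hTAS : S_TAS) (hD : S_DEC) (hM : S_HATM) (hG : S_GD3)
    (hH : S_HV) (h1 : S_SIG1) (h2 : S_SIG2) (hT : S_SIGT) (hTH : S_TH) (hN : S_NIL) (hV : S_VWP)
    {N : ℕ} {w l : ℂ} (hw : Rt N w) (hl : Gl l) {j : ℕ} (hj : j < N) :
    ∀ k < N, hat w l (FX w l) (gv w l j k) = ta w l (j + k) • gv w l j k := by
  intro k
  induction k using Nat.strong_induction_on with
  | _ k ih =>
  intro hk
  have gX := FX_gd3 h1 hT hG hw hl
  have hm := hM hTH hN N w l hw hl _ _ gX gX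
  have hsl := (hTH hN N w l hw hl).2.2.2.2.1
  have hgv := (hH h1 h2 hT N w l hw hl j hj).2.2
  -- the left side
  have hF : ∀ (t : ℕ) (x : V3), FX w l ((F3 w l)^[t] x) = (F3 w l)^[t] (FX w l x) := by
    intro t x
    induction t with
    | zero => rfl
    | succ t iht => rw [Function.iterate_succ_apply', gX.f, iht, Function.iterate_succ_apply']
  have hdec := (hD hV hTH hH h1 h2 hT hN N w l hw hl j hj k hk).2
  have hsg : sg w l (sg w l (gv w l j k)) = se w l j ^ 2 • gv w l j k := by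
    rw [(hgv k).2.2.1, map_smul, (hgv k).2.2.1, smul_smul, pow_two]
  have hh2 : Hom (j + k) (sg w l (sg w l (gv w l j k))) := by
    rw [hsg]
    intro a b hab
    show se w l j ^ 2 * gv w l j k a b = 0
    rw [gv_hom w l j k a b hab, mul_zero]
  have hL : ∀ q s, FX w l (io (gv w l j k)) 0 q s =
      (w / l) ^ (2 * (2 + j + k)) * se w l j ^ 2 * gv w l j k q s := by
    intro q s
    rw [FX_io _ (gv_hom w l j k) hh2, hsg, ← Nat.add_assoc 2 j k]
    show (w / l) ^ (2 * (2 + j + k)) * (se w l j ^ 2 * gv w l j k q s) = _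
    rw [mul_assoc]
  have hR : ∀ q s, FX w l (io (gv w l j k)) 0 q s =
      ∑ r ∈ range (k + 1), aa w l j k r * ((KK w l 0)⁻¹ ^ (k - r) *
        ((F2 w l)^[k - r] (hat w l (FX w l) (gv w l j r))) q s) := by
    intro q s
    rw [hdec, map_sum]
    rw [Finset.sum_apply, Finset.sum_apply, Finset.sum_apply]
    refine Finset.sum_congr rfl fun r _ => ?_
    rw [map_smul, hF, hm.2.1]
    show aa w l j k r * ((F3 w l)^[k - r] (Th w l (hat w l (FX w l) (gv w l j r)))) 0 q s = _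
    rw [hsl, (hTH hN N w l hw hl).2.1]
  have hS := hTAS hV N w l hw hl j hj k hk
  rw [Finset.sum_range_succ] at hS
  have hlow : ∀ q s, ∑ r ∈ range k, aa w l j k r * ((KK w l 0)⁻¹ ^ (k - r) *
        ((F2 w l)^[k - r] (hat w l (FX w l) (gv w l j r))) q s) =
      (∑ r ∈ range k, aa w l j k r * (KK w l 0)⁻¹ ^ (k - r) * ta w l (j + r)) *
        gv w l j k q s := by
    intro q s
    rw [Finset.sum_mul]
    refine Finset.sum_congr rfl fun r hr => ?_
    have hr' : r < k := Finset.mem_range.mp hr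
    rw [ih r hr' (hr'.trans hk)]
    have e : (F2 w l)^[k - r] (ta w l (j + r) • gv w l j r) =
        ta w l (j + r) • gv w l j k := by
      have e1 : ∀ (t : ℕ) (x : V2), (F2 w l)^[t] x = (F2 w l ^ t) x := by
        intro t x
        rw [Module.End.pow_apply]
      rw [e1, map_smul, ← e1, F2_gv, Nat.add_sub_cancel' hr'.le]
    rw [e]
    show aa w l j k r * ((KK w l 0)⁻¹ ^ (k - r) * (ta w l (j + r) * gv w l j k q s)) = _
    ring
  funext q s
  have h3 := hL q s
  rw [hR q s, Finset.sum_range_succ, hlow, ← hS, Nat.sub_self, pow_zero] at h3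
  have h4 : aa w l j k k * hat w l (FX w l) (gv w l j k) q s =
      aa w l j k k * (ta w l (j + k) * gv w l j k q s) := by
    have h5 : ((F2 w l)^[0] (hat w l (FX w l) (gv w l j k))) q s =
      hat w l (FX w l) (gv w l j k) q s := rfl
    rw [h5] at h3
    linear_combination h3
  exact mul_left_cancel₀ (aa_ne hw hl j k) h4

theorem sn_sg (hB : S_BAS) (hH : S_HV) (h1 : S_SIG1) (h2 : S_SIG2) (hT : S_SIGT) (hN : S_NIL)
    {N : ℕ} {w l : ℂ} (hw : Rt N w) (hl : Gl l) {x : V2} (hx : x ∈ T2 N) :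
    (sn w l * sg w l) x = x := by
  have h := eq_on_T2 hB hH h1 h2 hT hN hw hl (sn w l * sg w l) 1 ?_ hx
  · exact h
  · intro j hj k _
    have hgv := (hH h1 h2 hT N w l hw hl j hj).2.2 k
    have hse : se w l j ≠ 0 := by
      unfold se
      refine mul_ne_zero (mul_ne_zero (pow_ne_zero _ (by norm_num)) (zpow_ne_zero _ hl.ne))
        (pow_ne_zero _ (rt_ne hw))
    show sn w l (sg w l (gv w l j k)) = gv w l j k
    rw [hgv.2.2.1, map_smul, hgv.2.2.2, smul_smul, mul_inv_cancel₀ hse, one_smul]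

theorem slice_T2 {N : ℕ} {x : V3} (hx : x ∈ T3 N) (c : ℕ) : (fun a b => x a b c) ∈ T2 N := by
  intro a b h
  exact hx a b c (by rcases h with h | h <;> simp [h])

theorem slice1_T2 {N : ℕ} {x : V3} (hx : x ∈ T3 N) (a : ℕ) : x a ∈ T2 N := by
  intro b c h
  exact hx a b c (by rcases h with h | h <;> simp [h])

/-- the hats of inverse crossings -/
theorem hat_inv12 (hB : S_BAS) (hH : S_HV) (h1 : S_SIG1) (h2 : S_SIG2) (hT : S_SIGT)
    (hTH : S_TH) (hM : S_HATM) (hG : S_GD3) (hN : S_NIL)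
    {N : ℕ} {w l : ℂ} (hw : Rt N w) (hl : Gl l) {x : V2} (hx : x ∈ T2 N) :
    hat w l (L12 (sn w l)) (hat w l (L12 (sg w l)) x) = x := by
  have a := (hG N w l hw hl.ne _ (gd_sn h2 hT hw hl.ne)).1
  have b := (hG N w l hw hl.ne _ (gd_sg h1 hT hw hl.ne)).1
  have h := (hM hTH hN N w l hw hl _ _ a b).1
  have h' : hat w l (L12 (sn w l) * L12 (sg w l)) x = x := by
    show (L12 (sn w l)) ((L12 (sg w l)) (Th w l x)) 0 = x
    have hx3 : Th w l x ∈ T3 N := (hTH hN N w l hw hl).2.2.2.1 x hx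
    funext b c
    show sn w l (fun a b => (L12 (sg w l)) (Th w l x) a b c) 0 b = x b c
    have e : (fun a b => (L12 (sg w l)) (Th w l x) a b c) = sg w l (fun a b => Th w l x a b c) :=
      rfl
    rw [e]
    have e2 := sn_sg hB hH h1 h2 hT hN hw hl (slice_T2 hx3 c)
    rw [Module.End.mul_apply] at e2
    rw [e2]
    show Th w l x 0 b c = x b c
    rw [(hTH hN N w l hw hl).2.1]
  rw [h] at h'
  exact h'

theorem hat_inv23 (hB : S_BAS) (hH : S_HV) (h1 : S_SIG1) (h2 : S_SIG2) (hT : S_SIGT)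
    (hTH : S_TH) (hM : S_HATM) (hG : S_GD3) (hN : S_NIL)
    {N : ℕ} {w l : ℂ} (hw : Rt N w) (hl : Gl l) {x : V2} (hx : x ∈ T2 N) :
    hat w l (L23 (sn w l)) (hat w l (L23 (sg w l)) x) = x := by
  have a := (hG N w l hw hl.ne _ (gd_sn h2 hT hw hl.ne)).2
  have b := (hG N w l hw hl.ne _ (gd_sg h1 hT hw hl.ne)).2
  have h := (hM hTH hN N w l hw hl _ _ a b).1
  have h' : hat w l (L23 (sn w l) * L23 (sg w l)) x = x := by
    show sn w l (sg w l (Th w l x 0)) = x
    rw [(hTH hN N w l hw hl).2.1]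
    have e2 := sn_sg hB hH h1 h2 hT hN hw hl hx
    rw [Module.End.mul_apply] at e2
    exact e2
  rw [h] at h'
  exact h'

/-- FT -/
theorem ft : S_FT := by
  intro hTAS hD hB hM hG hH h1 h2 hT hTH hN hV N w l hw hl m x D hx hhom
  have gX := FX_gd3 h1 hT hG hw hl
  have gXn := FXn_gd3 h2 hT hG hw hl
  have hg := fun {j : ℕ} (hj : j < N) =>
    hat_FX_gv hTAS hD hM hG hH h1 h2 hT hTH hN hV hw hl hj
  have hpos : ∀ y ∈ T2 N, Hom D y → hat w l (FX w l) y = ta w l D • y := by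
    intro y hy hyD
    rw [← Tw_hom hyD]
    refine eq_on_T2 hB hH h1 h2 hT hN hw hl _ _ ?_ hy
    intro j hj k hk
    rw [hg hj k hk, Tw_hom (gv_hom w l j k)]
  have a' := (hG N w l hw hl.ne _ (gd_sn h2 hT hw hl.ne)).1
  have b' := (hG N w l hw hl.ne _ (gd_sn h2 hT hw hl.ne)).2
  have a := (hG N w l hw hl.ne _ (gd_sg h1 hT hw hl.ne)).1
  have b := (hG N w l hw hl.ne _ (gd_sg h1 hT hw hl.ne)).2
  have MM := hM hTH hN N w l hw hl
  have hneg : ∀ y ∈ T2 N, hat w l (FXn w l) (hat w l (FX w l) y) = y := by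
    intro y hy
    have e1 : hat w l (FXn w l) = hat w l (L12 (sn w l)) * hat w l (L23 (sn w l)) *
        hat w l (L12 (sn w l)) * hat w l (L12 (sn w l)) * hat w l (L23 (sn w l)) *
        hat w l (L12 (sn w l)) := by
      unfold FXn
      rw [(MM _ _ (gd3_mul (gd3_mul (gd3_mul (gd3_mul a' b') a') a') b') a').1,
        (MM _ _ (gd3_mul (gd3_mul (gd3_mul a' b') a') a') b').1,
        (MM _ _ (gd3_mul (gd3_mul a' b') a') a').1, (MM _ _ (gd3_mul a' b') a').1, (MM _ _ a' b').1]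
    have e2 : hat w l (FX w l) = hat w l (L12 (sg w l)) * hat w l (L23 (sg w l)) *
        hat w l (L12 (sg w l)) * hat w l (L12 (sg w l)) * hat w l (L23 (sg w l)) *
        hat w l (L12 (sg w l)) := by
      unfold FX
      rw [(MM _ _ (gd3_mul (gd3_mul (gd3_mul (gd3_mul a b) a) a) b) a).1,
        (MM _ _ (gd3_mul (gd3_mul (gd3_mul a b) a) a) b).1,
        (MM _ _ (gd3_mul (gd3_mul a b) a) a).1, (MM _ _ (gd3_mul a b) a).1, (MM _ _ a b).1]
    rw [e1, e2]
    have ha : ∀ z ∈ T2 N, hat w l (L12 (sg w l)) z ∈ T2 N := (MM _ _ a a).2.2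
    have hb : ∀ z ∈ T2 N, hat w l (L23 (sg w l)) z ∈ T2 N := (MM _ _ b b).2.2
    have i12 := fun {z : V2} (hz : z ∈ T2 N) => hat_inv12 hB hH h1 h2 hT hTH hM hG hN hw hl hz
    have i23 := fun {z : V2} (hz : z ∈ T2 N) => hat_inv23 hB hH h1 h2 hT hTH hM hG hN hw hl hz
    simp only [Module.End.mul_apply]
    have y1 := ha y hy
    have y2 := hb _ y1
    have y3 := ha _ y2
    have y4 := ha _ y3
    have y5 := hb _ y4
    rw [i12 y5, i23 y4, i12 y3, i12 y2, i23 y1, i12 hy]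
  have hneg' : ∀ y ∈ T2 N, Hom D y → hat w l (FXn w l) y = (ta w l D)⁻¹ • y := by
    intro y hy hyD
    have h3 := hneg y hy
    rw [hpos y hy hyD, map_smul] at h3
    rw [eq_inv_smul_iff₀ (ta_ne hw hl D)]
    exact h3
  have hsm : ∀ (c : ℂ) (y : V2), y ∈ T2 N → Hom D y → c • y ∈ T2 N ∧ Hom D (c • y) := by
    intro c y hy hyD
    refine ⟨(T2 N).smul_mem c hy, fun a b hab => ?_⟩
    show c * y a b = 0
    rw [hyD a b hab, mul_zero]
  have hpow : ∀ (A : V2 →ₗ[ℂ] V2) (c : ℂ), (∀ y ∈ T2 N, Hom D y → A y = c • y) → ∀ n : ℕ,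
      (A ^ n) x = c ^ n • x := by
    intro A c hA n
    induction n with
    | zero => simp
    | succ n ih =>
      rw [pow_succ', Module.End.mul_apply, ih, map_smul, hA x hx hhom, smul_smul, pow_succ]
  unfold fullt
  split_ifs with hm
  · have e : (L12 (sg w l) * L23 (sg w l) * L12 (sg w l) * L12 (sg w l) * L23 (sg w l) *
      L12 (sg w l)) = FX w l := rfl
    rw [e, hat_pow hM hTH hN hw hl gX, hpow _ _ hpos]
    congr 1
    conv_rhs => rw [← Int.toNat_of_nonneg hm]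
    rw [zpow_natCast]
  · have e : (L12 (sn w l) * L23 (sn w l) * L12 (sn w l) * L12 (sn w l) * L23 (sn w l) *
      L12 (sn w l)) = FXn w l := rfl
    rw [e, hat_pow hM hTH hN hw hl gXn, hpow _ _ hneg']
    congr 1
    have hm' : (0 : ℤ) ≤ -m := by omega
    have e2 : m = -((-m).toNat : ℤ) := by
      rw [Int.toNat_of_nonneg hm']; ring
    conv_rhs => rw [e2]
    rw [zpow_neg, zpow_natCast, inv_pow]

end Pool.Agent.Y516.CB
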