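import Pool.Agent.Y472.A.Defs

/-!
# Common lemmas for the action of the twist regions and of the full twist
-/

set_option autoImplicit false

namespace Pool.Agent.Y516.CB

open Finset Pool.Agent.Y472

theorem rt_ne {N : ℕ} {w : ℂ} (h : Rt N w) : w ≠ 0 := by
  intro h0
  have := h.nrm
  rw [h0, norm_zero] at this
  exact zero_ne_one this

theorem norm_wz {N : ℕ} {w : ℂ} (h : Rt N w) (k : ℤ) : ‖w ^ k‖ = 1 := by
  rw [norm_zpow, h.nrm, one_zpow]

theorem cb_ne {y : ℂ} (h0 : y ≠ 0) (h : ‖y‖ ≠ 1) : cb y ≠ 0 := by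
  intro h1
  unfold cb at h1
  have h2 : y = y⁻¹ := sub_eq_zero.mp h1
  have h3 : y * y = 1 := by
    conv_lhs => arg 2; rw [h2]
    exact mul_inv_cancel₀ h0
  have h4 : ‖y‖ * ‖y‖ = 1 := by rw [← norm_mul, h3, norm_one]
  have h5 : ‖y‖ = 1 := by nlinarith [norm_nonneg y]
  exact h h5

theorem norm_pow_ne {l : ℂ} (h : Gl l) {n : ℕ} (hn : n ≠ 0) : ‖l ^ n‖ ≠ 1 := by
  rw [norm_pow]
  intro h1
  exact h.nrm ((pow_eq_one_iff_of_nonneg (norm_nonneg _) hn).mp h1)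

theorem cb_lw {N : ℕ} {w l : ℂ} (hw : Rt N w) (hl : Gl l) {n : ℕ} (hn : n ≠ 0) (k : ℤ) :
    cb (l ^ n * w ^ k) ≠ 0 := by
  refine cb_ne (mul_ne_zero (pow_ne_zero _ hl.ne) (zpow_ne_zero _ (rt_ne hw))) ?_
  rw [norm_mul, norm_wz hw, mul_one]
  exact norm_pow_ne hl hn

theorem lb_ne {N : ℕ} {w l : ℂ} (hw : Rt N w) (hl : Gl l) (k : ℤ) : lb w l k ≠ 0 := by
  have := cb_lw hw hl one_ne_zero k
  rwa [pow_one] at this

/-- the nodes are distinct -/
theorem uu_inj {N : ℕ} {w l : ℂ} (hw : Rt N w) (hl : Gl l) : Set.InjOn (uu w l) (Set.Iio N) := by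
  intro i hi j hj hij
  have hi' : i < N := hi
  have hj' : j < N := hj
  have w0 := rt_ne hw
  unfold uu at hij
  set x : ℂ := l ^ 2 * w ^ (-1 - 2 * (i : ℤ)) with hx
  set y : ℂ := l ^ 2 * w ^ (-1 - 2 * (j : ℤ)) with hy
  have x0 : x ≠ 0 := mul_ne_zero (pow_ne_zero _ hl.ne) (zpow_ne_zero _ w0)
  have y0 : y ≠ 0 := mul_ne_zero (pow_ne_zero _ hl.ne) (zpow_ne_zero _ w0)
  have h1 : (x - y) * (x * y - 1) = 0 := by
    have h2 : (x + x⁻¹) * (x * y) = (y + y⁻¹) * (x * y) := by rw [hij]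
    have h3 : (x + x⁻¹) * (x * y) = x * x * y + y := by field_simp
    have h4 : (y + y⁻¹) * (x * y) = x * y * y + x := by field_simp
    rw [h3, h4] at h2
    linear_combination h2
  rcases mul_eq_zero.mp h1 with h2 | h2
  · have h3 : x = y := sub_eq_zero.mp h2
    have h4 : w ^ (-1 - 2 * (i : ℤ)) = w ^ (-1 - 2 * (j : ℤ)) :=
      mul_left_cancel₀ (pow_ne_zero 2 hl.ne) h3
    have h5 : (w ^ 2) ^ i = (w ^ 2) ^ j := by
      have e : ∀ t : ℕ, w ^ (-1 - 2 * (t : ℤ)) = w⁻¹ * ((w ^ 2) ^ t)⁻¹ := by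
        intro t
        rw [zpow_sub₀ w0, zpow_neg_one, div_eq_mul_inv, zpow_mul]
        norm_cast
      rw [e, e] at h4
      exact inv_injective (mul_left_cancel₀ (inv_ne_zero w0) h4)
    exact hw.prim.pow_inj hi' hj' h5
  · exfalso
    have h3 : x * y = 1 := sub_eq_zero.mp h2
    have h4 : ‖x * y‖ = ‖l ^ 4‖ := by
      rw [hx, hy, norm_mul, norm_mul, norm_mul, norm_wz hw, norm_wz hw, mul_one,
        ← norm_mul]
      congr 1
      ring
    rw [h3, norm_one] at h4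
    exact norm_pow_ne hl (by norm_num) h4.symm

/-! ### Homogeneous vectors -/

/-- homogeneous of degree `D` -/
def Hom (D : ℕ) (x : V2) : Prop := ∀ a b, a + b ≠ D → x a b = 0

theorem hv_hom (w l : ℂ) (j : ℕ) : Hom j (hv w l j) := by
  intro a b h
  unfold hv
  rw [if_neg h]

theorem F2_hom {w l : ℂ} {D : ℕ} {x : V2} (h : Hom D x) : Hom (D + 1) (F2 w l x) := by
  intro a b hab
  show qi w a * x (a - 1) b + (KK w l a)⁻¹ * qi w b * x a (b - 1) = 0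
  have q0 : qi w ((0 : ℕ) : ℤ) = 0 := by simp [qi, cb]
  have h1 : qi w a * x (a - 1) b = 0 := by
    rcases Nat.eq_zero_or_pos a with ha | ha
    · subst ha; rw [q0, zero_mul]
    · rw [h (a - 1) b (by omega), mul_zero]
  have h2 : qi w b * x a (b - 1) = 0 := by
    rcases Nat.eq_zero_or_pos b with hb | hb
    · subst hb; rw [q0, zero_mul]
    · rw [h a (b - 1) (by omega), mul_zero]
  rw [h1, mul_assoc, h2, mul_zero, add_zero]

theorem gv_hom (w l : ℂ) (j k : ℕ) : Hom (j + k) (gv w l j k) := by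
  induction k with
  | zero => exact hv_hom w l j
  | succ k ih =>
    have e : gv w l j (k + 1) = F2 w l (gv w l j k) := by
      unfold gv
      rw [Function.iterate_succ_apply']
    rw [e]
    exact F2_hom ih

theorem F2_gv (w l : ℂ) (j k t : ℕ) : (F2 w l)^[t] (gv w l j k) = gv w l j (k + t) := by
  unfold gv
  rw [← Function.iterate_add_apply, Nat.add_comm]

theorem F2_T2 {N : ℕ} {w l : ℂ} (hT : S_SIGT) (hw : Rt N w) (hl : l ≠ 0) {x : V2} (hx : x ∈ T2 N)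
    (k : ℕ) : (F2 w l)^[k] x ∈ T2 N := by
  induction k with
  | zero => exact hx
  | succ k ih =>
    rw [Function.iterate_succ_apply']
    exact (hT N w l hw hl).2.2.2.1 _ ih

/-! ### The basis -/

theorem span_g (hB : S_BAS) (hH : S_HV) (h1 : S_SIG1) (h2 : S_SIG2) (hT : S_SIGT) (hN : S_NIL)
    {N : ℕ} {w l : ℂ} (hw : Rt N w) (hl : Gl l) {x : V2} (hx : x ∈ T2 N) :
    ∃ c : Fin N × Fin N → ℂ, x = ∑ p, c p • gv w l p.1 p.2 := by
  have hdet := hB hH h1 h2 hT hN N w l hw hl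
  have hu : IsUnit (mG N w l).det := isUnit_iff_ne_zero.mpr hdet
  set r : Fin N × Fin N → ℂ := fun p => x p.1 p.2 with hr
  refine ⟨Matrix.mulVec (mG N w l)⁻¹ r, ?_⟩
  have key : Matrix.mulVec (mG N w l) (Matrix.mulVec (mG N w l)⁻¹ r) = r := by
    rw [Matrix.mulVec_mulVec, Matrix.mul_nonsing_inv _ hu, Matrix.one_mulVec]
  set c := Matrix.mulVec (mG N w l)⁻¹ r with hc
  funext a b
  rw [Finset.sum_apply, Finset.sum_apply]
  by_cases hab : N ≤ a ∨ N ≤ b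
  · rw [hx a b hab]
    symm
    refine Finset.sum_eq_zero fun p _ => ?_
    have hg : gv w l p.1 p.2 ∈ T2 N :=
      F2_T2 hT hw hl.ne (hH h1 h2 hT N w l hw hl p.1 p.1.2).1 _
    show c p * gv w l p.1 p.2 a b = 0
    rw [hg a b hab, mul_zero]
  · have ha : a < N := by omega
    have hb : b < N := by omega
    have := congrFun key (⟨a, ha⟩, ⟨b, hb⟩)
    rw [Matrix.mulVec, dotProduct] at this
    show x a b = _
    have e : r (⟨a, ha⟩, ⟨b, hb⟩) = x a b := rfl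
    rw [← e, ← this]
    refine Finset.sum_congr rfl fun p _ => ?_
    show mG N w l (⟨a, ha⟩, ⟨b, hb⟩) p * c p = c p * gv w l p.1 p.2 a b
    rw [mul_comm]
    rfl

/-- two operators which agree on the basis agree on `T2` -/
theorem eq_on_T2 (hB : S_BAS) (hH : S_HV) (h1 : S_SIG1) (h2 : S_SIG2) (hT : S_SIGT) (hN : S_NIL)
    {N : ℕ} {w l : ℂ} (hw : Rt N w) (hl : Gl l) (A B : V2 →ₗ[ℂ] V2)
    (h : ∀ j < N, ∀ k < N, A (gv w l j k) = B (gv w l j k)) {x : V2} (hx : x ∈ T2 N) :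
    A x = B x := by
  obtain ⟨c, hc⟩ := span_g hB hH h1 h2 hT hN hw hl hx
  rw [hc, map_sum, map_sum]
  refine Finset.sum_congr rfl fun p _ => ?_
  rw [map_smul, map_smul, h _ p.1.2 _ p.2.2]

/-! ### Good operators -/

theorem gd_sg (h1 : S_SIG1) (hT : S_SIGT) {N : ℕ} {w l : ℂ} (hw : Rt N w) (hl : l ≠ 0) :
    Gd N w l (sg w l) :=
  ⟨(h1 w l (rt_ne hw) hl).1, (h1 w l (rt_ne hw) hl).2, (hT N w l hw hl).2.2.2.2.2.1,
    (hT N w l hw hl).1⟩

theorem gd_sn (h2 : S_SIG2) (hT : S_SIGT) {N : ℕ} {w l : ℂ} (hw : Rt N w) (hl : l ≠ 0) :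
    Gd N w l (sn w l) :=
  ⟨(h2 w l (rt_ne hw) hl).1, (h2 w l (rt_ne hw) hl).2, (hT N w l hw hl).2.2.2.2.2.2.1,
    (hT N w l hw hl).2.1⟩

theorem gd_cas (hT : S_SIGT) {N : ℕ} {w l : ℂ} (hw : Rt N w) (hl : l ≠ 0) :
    Gd N w l (cas w l) :=
  ⟨(hT N w l hw hl).2.2.2.2.2.2.2.2.1, (hT N w l hw hl).2.2.2.2.2.2.2.2.2,
    (hT N w l hw hl).2.2.2.2.2.2.2.1, (hT N w l hw hl).2.2.2.2.1⟩

theorem gd3_one {N : ℕ} {w l : ℂ} : Gd3 N w l 1 := ⟨fun _ => rfl, fun _ => rfl, fun _ h => h⟩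

theorem gd3_mul {N : ℕ} {w l : ℂ} {X Y : V3 →ₗ[ℂ] V3} (hX : Gd3 N w l X) (hY : Gd3 N w l Y) :
    Gd3 N w l (X * Y) :=
  ⟨fun x => by rw [Module.End.mul_apply, Module.End.mul_apply, hY.e, hX.e],
    fun x => by rw [Module.End.mul_apply, Module.End.mul_apply, hY.f, hX.f],
    fun x hx => hX.t _ (hY.t _ hx)⟩

theorem gd3_pow {N : ℕ} {w l : ℂ} {X : V3 →ₗ[ℂ] V3} (hX : Gd3 N w l X) (n : ℕ) :
    Gd3 N w l (X ^ n) := by
  induction n with
  | zero => rw [pow_zero]; exact gd3_one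
  | succ n ih => rw [pow_succ]; exact gd3_mul ih hX

theorem hat_one {w l : ℂ} : hat w l 1 = 1 := by
  refine LinearMap.ext fun m => ?_
  rfl

theorem hat_pow (hM : S_HATM) (hTH : S_TH) (hN : S_NIL) {N : ℕ} {w l : ℂ} (hw : Rt N w)
    (hl : Gl l) {X : V3 →ₗ[ℂ] V3} (hX : Gd3 N w l X) (n : ℕ) :
    hat w l (X ^ n) = hat w l X ^ n := by
  induction n with
  | zero => rw [pow_zero, pow_zero]; exact hat_one
  | succ n ih =>
    rw [pow_succ, pow_succ, (hM hTH hN N w l hw hl _ _ (gd3_pow hX n) hX).1, ih]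

end Pool.Agent.Y516.CB
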